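import Mathlib
import Pool.Agent.H409.Signature

/-!
Pythagorean triples are monochromatic for every colouring (with any number of colours, even
infinitely many) which on the multiples of some fixed `N > 0` depends only on the prime
signature.
-/

namespace Pool.Agent.Results.MP_0f91f8_co.SignatureColourings

open Pool.Agent.H409

/-- Let `c` be any colouring of `ℕ` (with an arbitrary set `C` of colours) for which there is
`N > 0` such that two positive multiples of `N` with the same prime signature (the multiset of
the exponents of the prime factorisation) always have the same colour. Then there are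
arbitrarily large monochromatic Pythagorean triples. -/
theorem result {C : Type*} (c : ℕ → C) (N : ℕ) (hN : 0 < N)
    (hc : ∀ m n : ℕ, 0 < m → 0 < n → N ∣ m → N ∣ n →
      m.primeFactors.val.map (fun p => m.factorization p) =
        n.primeFactors.val.map (fun p => n.factorization p) → c m = c n) (K : ℕ) :
    ∃ x y z : ℕ, K < x ∧ K < y ∧ K < z ∧ x ^ 2 + y ^ 2 = z ^ 2 ∧ c x = c y ∧ c y = c z := by
  have p2 : Nat.Prime 2 := by norm_num
  have p3 : Nat.Prime 3 := by norm_num
  have p5 : Nat.Prime 5 := by norm_num
  have p11 : Nat.Prime 11 := by norm_num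
  have p13 : Nat.Prime 13 := by norm_num
  have h44 : ArithmeticFunction.cardFactors 44 = 3 := by
    rw [show (44 : ℕ) = 2 ^ 2 * 11 by norm_num,
      ArithmeticFunction.cardFactors_mul (by norm_num) (by norm_num),
      ArithmeticFunction.cardFactors_apply_prime_pow p2,
      ArithmeticFunction.cardFactors_apply_prime p11]
  have h117 : ArithmeticFunction.cardFactors 117 = 3 := by
    rw [show (117 : ℕ) = 3 ^ 2 * 13 by norm_num,
      ArithmeticFunction.cardFactors_mul (by norm_num) (by norm_num),
      ArithmeticFunction.cardFactors_apply_prime_pow p3,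
      ArithmeticFunction.cardFactors_apply_prime p13]
  have h125 : ArithmeticFunction.cardFactors 125 = 3 := by
    rw [show (125 : ℕ) = 5 ^ 3 by norm_num,
      ArithmeticFunction.cardFactors_apply_prime_pow p5]
  obtain ⟨M, hM0, hMN, e1, e2⟩ := exists_common_multiplier (a := 44) (b := 117) (c := 125)
    (by norm_num) (by norm_num) (by norm_num) (by norm_num) (by norm_num) (by norm_num)
    (by rw [h44, h117]) (by rw [h117, h125]) (N * (K + 1)) (Nat.mul_pos hN (Nat.succ_pos K))
  have hK : K < M := by
    have h1 : N * (K + 1) ≤ M := Nat.le_of_dvd hM0 hMN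
    have h2 : 1 * (K + 1) ≤ N * (K + 1) := Nat.mul_le_mul_right _ hN
    omega
  have hNM : N ∣ M := dvd_trans (dvd_mul_right N (K + 1)) hMN
  refine ⟨44 * M, 117 * M, 125 * M, by omega, by omega, by omega, by ring, ?_, ?_⟩
  · exact hc _ _ (by omega) (by omega) (Dvd.dvd.mul_left hNM 44) (Dvd.dvd.mul_left hNM 117) e1
  · exact hc _ _ (by omega) (by omega) (Dvd.dvd.mul_left hNM 117) (Dvd.dvd.mul_left hNM 125) e2

end Pool.Agent.Results.MP_0f91f8_co.SignatureColourings
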